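import Pool.Agent.Q283.FG.All

/-!
# The exact joint law of the 2-Selmer groups of the quadratic twists of elliptic curves over number fields

Let `F` be any number field. Every elliptic curve over `F` with rational points of order two has
an equation `y² = (x - e 0) (x - e 1) (x - e 2)` with different `e j ∈ F` of sum `0`. Let `E_1, …, E_n` be such curves. We assume

* that no product `(e i - e j) (e i - e l)` with different `i, j, l` is a square in `F`: the curve has no cyclic subgroup of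
  order `4` over `F`;
* that not all three products `-(e i - e j) (e i - e l)` are squares in `F` (this is automatic if `F` has a real place or
  contains a square root of `-1`);
* that for `k ≠ l` the modules `E_k[4]` and `E_l[4]` are not isomorphic: there is no bijection `σ` of the roots such that all
  the products `(e i - e j) (e' (σ i) - e' (σ j))`, `i ≠ j`, are squares in `F`.

(The curves may be twists of each other: `E_m[4]` and `E_m'[4]` are isomorphic only if `m m'` or `- m m'` is a square, in the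
second case only if a product `-(e i - e j) (e i - e l)` is a square.) The twist `E_D` of `E` by `D ∈ F^*` has the roots `D e j`.
For every curve with these equations `#Sel_2 = 2^(2 + r)`, and `2^rank · #Ш[2] = 2^r`; so `r` is the sum of the rank and of the
dimension of `Ш[2]`.

The theorem. Prescribe `D` up to squares in the completions at all places above the prime numbers `≤ y` (it is equal to `D₀`
there), where `y` is large, and its signs at the real places (those of `D₀`), and let its order be odd at `k` further primes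
`q_0, …, q_(k-1)`, of norms `≤ X_0, …, X_(k-1)`, and even at all other primes. Then the parities of the numbers `r_l(D)` are
those of `r_l(D₀)`. For large `k`, `X_0`, then `X_1` large in terms of `X_0`, and so on, the vector `(r_1(D), …, r_n(D))` is
distributed as a vector of *independent* random variables, the `l`-th with the law

`p(e) = (β / 2) 2^e / ((2 - 1) (2² - 1) ⋯ (2^e - 1))`, `β = ∏_(i ≥ 0) (1 - 2^(-2i-1)) = 0.4194…`

(of Heath-Brown and of Poonen and Rains) conditioned by the parity of `r_l(D₀)`: for every `ε > 0`, uniformly for all sets `𝒜` of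
vectors the share of the tuples with `(r_1(D), …, r_n(D)) ∈ 𝒜` differs from the probability by at most `ε`. For instance,
if all parities are even then for exactly `β^n` of the tuples all the curves have finite groups of points over `F` and
`Ш[2^∞] = 0`.

Proof. The tables of the quadratic residue symbols of the `q_i` and of the classes of `S`-units are equidistributed (by
Chebotarev's theorem and the law of reciprocity over `F`, deduced from Artin's law, in `Pool/Agent/Q7`, `Pool/Agent/Q283/EN`,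
`Pool/Agent/Q283/FG`), and the Selmer groups are the spaces of the solutions of systems of linear equations which they determine
together with maximal isotropic local conditions at the places above the primes `≤ y` and at the real places. The joint law of
the dimensions of the spaces of the solutions is computed with the linear algebra of the project JQ (joint law over `ℚ`,
MP_e23604_nt.JointSelmerLaw) of the helpers 44, 81, 87, 153, 154, 177, 182, 261 and 299. Number fields which contain a square root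
of `-1` are in `Pool/Agent/Q283/FT`, all others in `Pool/Agent/Q283/FG`.

The parts were proved together with the helpers 7, 13, 31, 38, 53, 64, 65, 68, 79, 91, 94, 96, 121, 124, 129, 130, 149, 150, 151, 153, 154, 162, 164, 176, 181, 182, 184,
187, 190, 192, 198, 211, 214, 223, 224, 238, 241, 247, 252, 259, 265, 277 and 285.
-/

set_option autoImplicit false

namespace Pool.Agent.Results.MP_1a91b9_nt.JointLawAllNumberFields

open NumberField IsDedekindDomain Filter Topology WeierstrassCurve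
open Pool.Agent.TH841.NF.D (Sha)
open Pool.Agent.TH841.SH.D (Pt)
open scoped Classical

/-- The curve `y² = (x - e 0) (x - e 1) (x - e 2)`, for `e 0 + e 1 + e 2 = 0`. -/
def curve {F : Type} [Field F] (e : Fin 3 → F) : WeierstrassCurve F :=
  ⟨0, 0, 0, e 0 * e 1 + e 0 * e 2 + e 1 * e 2, -(e 0 * e 1 * e 2)⟩

/-- The roots `D e j` of the quadratic twist by `D`. -/
def twist {F : Type} [Field F] (D : F) (e : Fin 3 → F) : Fin 3 → F := fun j => D * e j

/-- The product of the differences of one root with the two others is not a square: the curve has no cyclic subgroup of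
order `4` over `F`. -/
def NoCyclicFour {F : Type} [Field F] (e : Fin 3 → F) : Prop :=
  ∀ i j l, i ≠ j → i ≠ l → j ≠ l → ∀ s : F, (e i - e j) * (e i - e l) ≠ s ^ 2

/-- The negatives of the products of the differences of one root with the two others are squares, for all three roots. This is
not possible if `F` has a real place. -/
def Exceptional {F : Type} [Field F] (e : Fin 3 → F) : Prop :=
  ∀ i j l, i ≠ j → i ≠ l → j ≠ l → ∃ s : F, -((e i - e j) * (e i - e l)) = s ^ 2

/-- The differences of the roots are equal modulo squares for some bijection of the roots: the modules of the points of order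
dividing `4` are isomorphic. -/
def Matched {F : Type} [Field F] (e e' : Fin 3 → F) : Prop :=
  ∃ σ : Equiv.Perm (Fin 3), ∀ i j, i ≠ j → ∃ s : F, (e i - e j) * (e' (σ i) - e' (σ j)) = s ^ 2

section Ensemble

variable {F : Type} [Field F] [NumberField F]

/-- The rank of the group of the points over `F`. -/
noncomputable def rank (e : Fin 3 → F) : ℕ := Module.finrank ℤ (Pt (curve e) F)

/-- The elements of `Ш` which are killed by `2`. -/
def ShaTwo (e : Fin 3 → F) : Type := {x : Sha (curve e) // (2 : ℕ) • x = 0}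

/-- The sum of the rank and of the dimension of `Ш[2]`. -/
noncomputable def selmerRank (e : Fin 3 → F) : ℕ := rank e + Nat.log 2 (Nat.card (ShaTwo e))

/-- `a ≠ 0`, `b ≠ 0`, and the covering `a z₀² + e₀ w² = b z₁² + e₁ w² = a b z₂² + e₂ w²` of the curve has a point over all
completions of `F` at its finite places and over the real numbers for all embeddings of `F` into the real numbers. -/
def Solvable (e : Fin 3 → F) (a b : F) : Prop :=
  (∀ v : HeightOneSpectrum (𝓞 F), a ≠ 0 ∧ b ≠ 0 ∧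
    ∃ (z : Fin 3 → v.adicCompletion F) (w : v.adicCompletion F), (z ≠ 0 ∨ w ≠ 0) ∧
      algebraMap F (v.adicCompletion F) a * z 0 ^ 2 + algebraMap F (v.adicCompletion F) (e 0) * w ^ 2 =
        algebraMap F (v.adicCompletion F) b * z 1 ^ 2 + algebraMap F (v.adicCompletion F) (e 1) * w ^ 2 ∧
      algebraMap F (v.adicCompletion F) a * z 0 ^ 2 + algebraMap F (v.adicCompletion F) (e 0) * w ^ 2 =
        algebraMap F (v.adicCompletion F) (a * b) * z 2 ^ 2 + algebraMap F (v.adicCompletion F) (e 2) * w ^ 2) ∧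
  ∀ φ : F →+* ℝ, a ≠ 0 ∧ b ≠ 0 ∧ ∃ (z : Fin 3 → ℝ) (w : ℝ), (z ≠ 0 ∨ w ≠ 0) ∧
    φ a * z 0 ^ 2 + φ (e 0) * w ^ 2 = φ b * z 1 ^ 2 + φ (e 1) * w ^ 2 ∧
    φ a * z 0 ^ 2 + φ (e 0) * w ^ 2 = φ (a * b) * z 2 ^ 2 + φ (e 2) * w ^ 2

/-- The order of the 2-Selmer group: there are exactly `N` classes modulo squares of pairs `(a, b)` with `Solvable e a b`. -/
def SelmerOrder (e : Fin 3 → F) (N : ℕ) : Prop :=
  ∃ a : Fin N → F × F, (∀ i, Solvable e (a i).1 (a i).2) ∧
    (∀ i j, i ≠ j → ¬ ((∃ x : F, (a i).1 / (a j).1 = x ^ 2) ∧ ∃ x : F, (a i).2 / (a j).2 = x ^ 2)) ∧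
    ∀ b c, Solvable e b c → ∃ i, (∃ x : F, b / (a i).1 = x ^ 2) ∧ ∃ x : F, c / (a i).2 = x ^ 2

/-- The order of `a` at `v`. -/
noncomputable def order (v : HeightOneSpectrum (𝓞 F)) (a : F) : ℤ := -WithZero.log (v.valuation F a)

/-- `a` is the square of a nonzero element of the completion of `F` at `v`. -/
def SquareAt (v : HeightOneSpectrum (𝓞 F)) (a : F) : Prop :=
  a ≠ 0 ∧ ∃ s : v.adicCompletion F, (a : v.adicCompletion F) = s ^ 2

/-- `v` lies above a prime number `l ≤ y`. -/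
def Small (y : ℕ) (v : HeightOneSpectrum (𝓞 F)) : Prop :=
  ∃ l : ℕ, l.Prime ∧ l ≤ y ∧ (l : 𝓞 F) ∈ v.asIdeal

/-- Among the primes not above prime numbers `≤ y` the order of `D` is odd exactly at the primes `q i`; at the primes above
prime numbers `≤ y` the number `D` is equal to `D₀` up to local squares; and at all real places `D` and `D₀` have the same
sign. -/
structure Fits (y : ℕ) (D₀ : F) {k : ℕ} (q : Fin k → HeightOneSpectrum (𝓞 F)) (D : F) : Prop where
  ne : D ≠ 0
  unr : ∀ v : HeightOneSpectrum (𝓞 F), ¬ Small y v → (∀ i, q i ≠ v) → Even (order v D)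
  ram : ∀ i, Odd (order (q i) D)
  loc : ∀ v : HeightOneSpectrum (𝓞 F), Small y v → SquareAt v (D / D₀)
  real : ∀ φ : F →+* ℝ, 0 < φ (D / D₀)

/-- The ensemble: the tuples of `k` different primes `q i`, not above prime numbers `≤ y`, of norm `≤ X i`, to which a
`D` belongs. -/
def Ensemble (y : ℕ) (D₀ : F) {k : ℕ} (X : Fin k → ℕ) : Set (Fin k → HeightOneSpectrum (𝓞 F)) :=
  {q | (Function.Injective q ∧ ∀ i, ¬ Small y (q i) ∧ Ideal.absNorm (q i).asIdeal ≤ X i) ∧ ∃ D, Fits y D₀ q D}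

end Ensemble

/-- `P X` is true for all large `X 0`, for all `X 1` which are large in terms of `X 0`, …, for all `X (k-1)` which are
large in terms of the others. -/
def Nested : (k : ℕ) → ((Fin k → ℕ) → Prop) → Prop
  | 0, P => P Fin.elim0
  | k + 1, P => Nested k fun X => ∀ᶠ x : ℕ in atTop, P (Fin.snoc (α := fun _ => ℕ) X x)

/-- The share of the subset `S` of the finite set `T`. -/
noncomputable def share {α : Type} (S T : Set α) : ℝ := (S.ncard : ℝ) / T.ncard

/-- The infinite product of the numbers `1 - 2 ^ (- 2 i - 1)`, `i ≥ 0`. -/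
noncomputable def beta : ℝ := ∏' i : ℕ, (1 - (1 / 2 : ℝ) ^ (2 * i + 1))

/-- The probability of `e` in the law `p`. -/
noncomputable def law (e : ℕ) : ℝ :=
  beta / 2 * (2 ^ e / ∏ i ∈ Finset.range e, ((2 : ℝ) ^ (i + 1) - 1))

/-- The probability of `e` in the law `p` conditioned by the parity `c`. -/
noncomputable def parityLaw (c : ZMod 2) (e : ℕ) : ℝ := if (e : ZMod 2) = c then 2 * law e else 0

section Proof

theorem nested_iff : ∀ (k : ℕ) (P : (Fin k → ℕ) → Prop), Nested k P ↔ Q283.LQ.Nest k P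
  | 0, _ => Iff.rfl
  | k + 1, _ => nested_iff k _

theorem law_eq : law = Pool.Agent.Q269.SL.law2 := by
  funext e
  rw [Pool.Agent.Q269.SL.law2_eq]
  rfl

theorem parity_eq (c : ZMod 2) (e : ℕ) : parityLaw c e = Q44.JQ.lawc c e := by
  unfold parityLaw Q44.JQ.lawc
  rw [law_eq]

variable {F : Type} [Field F]

theorem noFour {e : Fin 3 → F} (h : NoCyclicFour e) : Q283.FG.NoFour e := by
  have h01 := h 2 0 1 (by decide) (by decide) (by decide)
  have h02 := h 1 0 2 (by decide) (by decide) (by decide)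
  have h12 := h 0 1 2 (by decide) (by decide) (by decide)
  refine ⟨?_, ?_, ?_⟩
  · rintro ⟨s, hs⟩
    refine h12 s (Eq.trans ?_ hs)
    show _ = (e 0 - e 2) * (e 0 - e 1)
    ring
  · rintro ⟨s, hs⟩
    refine h02 s (Eq.trans ?_ hs)
    show _ = -((e 1 - e 2) * (e 0 - e 1))
    ring
  · rintro ⟨s, hs⟩
    refine h01 s (Eq.trans ?_ hs)
    show _ = (e 1 - e 2) * (e 0 - e 2)
    ring

theorem exceptional {e : Fin 3 → F} (h : Q283.FG.Exc e) : Exceptional e := by
  obtain ⟨⟨s, hs⟩, ⟨t, ht⟩, ⟨u, hu⟩⟩ := h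
  have hs' : -((e 0 - e 2) * (e 0 - e 1)) = s ^ 2 := hs
  have ht' : (e 1 - e 2) * (e 0 - e 1) = t ^ 2 := ht
  have hu' : -((e 1 - e 2) * (e 0 - e 2)) = u ^ 2 := hu
  intro i j l hij hil hjl
  have h3 : ∀ i j l : Fin 3, i ≠ j → i ≠ l → j ≠ l → (i = 0 ∧ (j = 1 ∧ l = 2 ∨ j = 2 ∧ l = 1)) ∨
      (i = 1 ∧ (j = 0 ∧ l = 2 ∨ j = 2 ∧ l = 0)) ∨ (i = 2 ∧ (j = 0 ∧ l = 1 ∨ j = 1 ∧ l = 0)) := by decide
  rcases h3 i j l hij hil hjl with ⟨rfl, ⟨rfl, rfl⟩ | ⟨rfl, rfl⟩⟩ | ⟨rfl, ⟨rfl, rfl⟩ | ⟨rfl, rfl⟩⟩ |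
    ⟨rfl, ⟨rfl, rfl⟩ | ⟨rfl, rfl⟩⟩
  · exact ⟨s, by linear_combination hs'⟩
  · exact ⟨s, by linear_combination hs'⟩
  · exact ⟨t, by linear_combination ht'⟩
  · exact ⟨t, by linear_combination ht'⟩
  · exact ⟨u, by linear_combination hu'⟩
  · exact ⟨u, by linear_combination hu'⟩

theorem not_exceptional (φ : F →+* ℝ) {e : Fin 3 → F} (he : Function.Injective e) : ¬ Exceptional e := by
  intro h
  have h2 : ∀ i j l, i ≠ j → i ≠ l → j ≠ l → (φ (e i) - φ (e j)) * (φ (e i) - φ (e l)) < 0 := by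
    intro i j l hij hil hjl
    obtain ⟨s, hs⟩ := h i j l hij hil hjl
    have h3 : (φ (e i) - φ (e j)) * (φ (e i) - φ (e l)) = -(φ s) ^ 2 := by
      rw [← map_pow, ← hs, map_neg, map_mul, map_sub, map_sub]
      ring
    have h4 : (φ (e i) - φ (e j)) * (φ (e i) - φ (e l)) ≠ 0 :=
      mul_ne_zero (sub_ne_zero.2 fun hc => hij (he (φ.injective hc))) (sub_ne_zero.2 fun hc => hil (he (φ.injective hc)))
    rcases lt_or_eq_of_le (show (φ (e i) - φ (e j)) * (φ (e i) - φ (e l)) ≤ 0 by rw [h3]; nlinarith [sq_nonneg (φ s)]) with h5 | h5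
    · exact h5
    · exact absurd h5 h4
  have h01 := h2 2 0 1 (by decide) (by decide) (by decide)
  have h02 := h2 1 0 2 (by decide) (by decide) (by decide)
  have h12 := h2 0 1 2 (by decide) (by decide) (by decide)
  nlinarith [sq_nonneg (φ (e 0) - φ (e 1)), sq_nonneg (φ (e 0) - φ (e 2)), sq_nonneg (φ (e 1) - φ (e 2))]

theorem matched_twists {e : Fin 3 → F} (he : Function.Injective e) {m m' : F} : Matched (twist m e) (twist m' e) ↔
    (∃ x : F, m * m' = x ^ 2) ∨ (∃ x : F, -(m * m') = x ^ 2) ∧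
      ∃ i j l, i ≠ j ∧ i ≠ l ∧ j ≠ l ∧ ∃ s : F, -((e i - e j) * (e i - e l)) = s ^ 2 := by
  constructor
  · rintro ⟨σ, hσ⟩
    have key : ∀ a b : Fin 3, a ≠ b → ∃ s : F, m * m' * ((e a - e b) * (e (σ a) - e (σ b))) = s ^ 2 := by
      intro a b hab
      obtain ⟨s, hs⟩ := hσ a b hab
      refine ⟨s, ?_⟩
      rw [← hs]
      show _ = (m * e a - m * e b) * (m' * e (σ a) - m' * e (σ b))
      ring
    by_cases h0 : m * m' = 0
    · exact Or.inl ⟨0, by rw [h0]; ring⟩
    by_cases hfix : ∃ a b c : Fin 3, a ≠ b ∧ a ≠ c ∧ b ≠ c ∧ σ a = b ∧ σ b = a ∧ σ c = c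
    · obtain ⟨a, b, c, hab, hac, hbc, h1, h2, h3⟩ := hfix
      obtain ⟨s, hs⟩ := key a b hab
      obtain ⟨t, ht⟩ := key a c hac
      rw [h1, h2] at hs
      rw [h1, h3] at ht
      have hd : e a - e b ≠ 0 := sub_ne_zero.2 fun hc => hab (he hc)
      have hneg : -(m * m') = (s / (e a - e b)) ^ 2 := by
        rw [div_pow, eq_div_iff (pow_ne_zero 2 hd), ← hs]
        ring
      refine Or.inr ⟨⟨_, hneg⟩, c, a, b, hac.symm, hbc.symm, hab, t / (s / (e a - e b)), ?_⟩
      have hs0 : s / (e a - e b) ≠ 0 := by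
        intro hc
        rw [hc] at hneg
        exact h0 (by linear_combination -hneg)
      rw [div_pow, eq_div_iff (pow_ne_zero 2 hs0), ← hneg, ← ht]
      ring
    · left
      obtain ⟨s, hs⟩ := key 0 1 (by decide)
      obtain ⟨t, ht⟩ := key 0 2 (by decide)
      obtain ⟨u, hu⟩ := key 1 2 (by decide)
      have hd : ∀ a b : Fin 3, a ≠ b → e a - e b ≠ 0 := fun a b hab => sub_ne_zero.2 fun hc => hab (he hc)
      have hprod : ∀ a b c : Fin 3, σ 0 = a → σ 1 = b → σ 2 = c → (m * m') ^ 3 * ((e 0 - e 1) * (e 0 - e 2) * (e 1 - e 2)) *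
          ((e a - e b) * (e a - e c) * (e b - e c)) = (s * t * u) ^ 2 := by
        rintro a b c rfl rfl rfl
        rw [mul_pow (s * t) u, mul_pow s t, ← hs, ← ht, ← hu]
        ring
      have hd0 : (e 0 - e 1) * (e 0 - e 2) * (e 1 - e 2) ≠ 0 :=
        mul_ne_zero (mul_ne_zero (hd _ _ (by decide)) (hd _ _ (by decide))) (hd _ _ (by decide))
      have hfin : (m * m') ^ 3 * ((e 0 - e 1) * (e 0 - e 2) * (e 1 - e 2)) ^ 2 = (s * t * u) ^ 2 → ∃ x : F, m * m' = x ^ 2 := by
        intro h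
        refine ⟨s * t * u / (m * m' * ((e 0 - e 1) * (e 0 - e 2) * (e 1 - e 2))), ?_⟩
        rw [div_pow, eq_div_iff (pow_ne_zero 2 (mul_ne_zero h0 hd0)), ← h]
        ring
      have hperm : (σ 0 = 0 ∧ σ 1 = 1 ∧ σ 2 = 2) ∨ (σ 0 = 1 ∧ σ 1 = 2 ∧ σ 2 = 0) ∨ (σ 0 = 2 ∧ σ 1 = 0 ∧ σ 2 = 1) := by
        clear hs ht hu key hσ hprod hfin
        revert hfix
        revert σ
        decide
      rcases hperm with ⟨h1, h2, h3⟩ | ⟨h1, h2, h3⟩ | ⟨h1, h2, h3⟩
      · exact hfin (by rw [← hprod _ _ _ h1 h2 h3]; ring)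
      · exact hfin (by rw [← hprod _ _ _ h1 h2 h3]; ring)
      · exact hfin (by rw [← hprod _ _ _ h1 h2 h3]; ring)
  · rintro (⟨x, hx⟩ | ⟨⟨x, hx⟩, c, a, b, hca, hcb, hab, s, hs⟩)
    · refine ⟨Equiv.refl _, fun i j _ => ⟨x * (e i - e j), ?_⟩⟩
      show (m * e i - m * e j) * (m' * e i - m' * e j) = _
      rw [mul_pow, ← hx]
      ring
    · have h1 : ∀ i j : Fin 3, (i = a ∧ j = b ∨ i = b ∧ j = a) → ∃ s : F, m * m' * ((e i - e j) * (e (Equiv.swap a b i) - e (Equiv.swap a b j))) = s ^ 2 := by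
        rintro i j (⟨rfl, rfl⟩ | ⟨rfl, rfl⟩)
        · refine ⟨x * (e i - e j), ?_⟩
          rw [Equiv.swap_apply_left, Equiv.swap_apply_right, mul_pow, ← hx]
          ring
        · refine ⟨x * (e i - e j), ?_⟩
          rw [Equiv.swap_apply_left, Equiv.swap_apply_right, mul_pow, ← hx]
          ring
      have hc : Equiv.swap a b c = c := Equiv.swap_apply_of_ne_of_ne hca hcb
      have h2 : ∀ i j : Fin 3, (i = a ∨ i = b) ∧ j = c ∨ i = c ∧ (j = a ∨ j = b) → ∃ s : F, m * m' * ((e i - e j) * (e (Equiv.swap a b i) - e (Equiv.swap a b j))) = s ^ 2 := by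
        rintro i j (⟨rfl | rfl, rfl⟩ | ⟨rfl, rfl | rfl⟩)
        · refine ⟨x * s, ?_⟩
          rw [hc, Equiv.swap_apply_left, mul_pow, ← hx, ← hs]
          ring
        · refine ⟨x * s, ?_⟩
          rw [hc, Equiv.swap_apply_right, mul_pow, ← hx, ← hs]
          ring
        · refine ⟨x * s, ?_⟩
          rw [hc, Equiv.swap_apply_left, mul_pow, ← hx, ← hs]
          ring
        · refine ⟨x * s, ?_⟩
          rw [hc, Equiv.swap_apply_right, mul_pow, ← hx, ← hs]
          ring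
      have h3 : ∀ i j : Fin 3, i ≠ j → (i = a ∧ j = b ∨ i = b ∧ j = a) ∨ ((i = a ∨ i = b) ∧ j = c ∨ i = c ∧ (j = a ∨ j = b)) := by
        revert hca hcb hab
        clear * -
        revert a b c
        decide
      refine ⟨Equiv.swap a b, fun i j hij => ?_⟩
      obtain ⟨s', hs'⟩ := (h3 i j hij).elim (h1 i j) (h2 i j)
      refine ⟨s', ?_⟩
      rw [← hs']
      show (m * e i - m * e j) * (m' * e (Equiv.swap a b i) - m' * e (Equiv.swap a b j)) = _
      ring

variable [NumberField F]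

theorem odd_iff (v : HeightOneSpectrum (𝓞 F)) (D : F) : Odd (order v D) ↔ Q7.LK.vl 2 v D = 1 := by
  unfold order Q7.LK.vl
  rw [← Int.cast_neg]
  constructor
  · rintro ⟨n, hn⟩
    rw [hn]
    push_cast
    have h2 : (2 : ZMod 2) = 0 := rfl
    rw [h2, zero_mul, zero_add]
  · intro h
    by_contra hc
    rw [Int.not_odd_iff_even] at hc
    obtain ⟨n, hn⟩ := hc
    rw [hn, Int.cast_add, CharTwo.add_self_eq_zero] at h
    exact zero_ne_one h

theorem even_iff (v : HeightOneSpectrum (𝓞 F)) (D : F) : Even (order v D) ↔ Q7.LK.vl 2 v D = 0 := by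
  rw [← Int.not_odd_iff_even, odd_iff]
  generalize Q7.LK.vl 2 v D = z
  revert z
  decide

theorem loc_iff (v : HeightOneSpectrum (𝓞 F)) (a : F) : SquareAt v a ↔ Q7.LK.Lpw 2 v a := by
  have : Fact (Nat.Prime 2) := ⟨Nat.prime_two⟩
  exact (Q7.LK.t_CPL 2 F v a).symm

theorem fits_iff {y : ℕ} {D₀ : F} {k : ℕ} {q : Fin k → HeightOneSpectrum (𝓞 F)} (hq : Function.Injective q)
    (hs : ∀ i, ¬ Small y (q i)) {D : F} : Fits y D₀ q D ↔ Q283.FG.FR y D₀ q D := by
  have hsum : ∀ v : HeightOneSpectrum (𝓞 F), (∀ i, q i ≠ v) → (∑ i, if q i = v then (1 : ZMod 2) else 0) = 0 :=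
    fun v hv => Finset.sum_eq_zero fun i _ => if_neg (hv i)
  have hsum1 : ∀ j, (∑ i, if q i = q j then (1 : ZMod 2) else 0) = 1 := by
    intro j
    rw [Finset.sum_eq_single j (fun i _ hij => if_neg fun h => hij (hq h)) (fun h => absurd (Finset.mem_univ _) h),
      if_pos rfl]
  constructor
  · intro h
    refine ⟨⟨h.ne, fun v hv => ?_, fun v hv => (loc_iff v _).1 (h.loc v hv)⟩, h.real⟩
    by_cases hv' : ∀ i, q i ≠ v
    · rw [(even_iff v D).1 (h.unr v hv hv')]
      exact (hsum v hv').symm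
    · push Not at hv'
      obtain ⟨j, rfl⟩ := hv'
      rw [(odd_iff _ D).1 (h.ram j)]
      exact (hsum1 j).symm
  · rintro ⟨h, hreal⟩
    refine ⟨h.ne, fun v hv hv' => ?_, fun j => ?_, fun v hv => (loc_iff v _).2 (h.loc v hv), hreal⟩
    · rw [even_iff, h.ram v hv]
      exact hsum v hv'
    · rw [odd_iff, h.ram (q j) (hs j)]
      exact hsum1 j

theorem ens_eq (y : ℕ) (D₀ : F) {k : ℕ} (X : Fin k → ℕ) : Ensemble y D₀ X = Q283.FG.Ens y D₀ X := by
  ext q
  constructor
  · rintro ⟨hq, D, hD⟩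
    exact ⟨hq, D, (fits_iff hq.1 fun i => (hq.2 i).1).1 hD⟩
  · rintro ⟨hq, D, hD⟩
    exact ⟨hq, D, (fits_iff hq.1 fun i => (hq.2 i).1).2 hD⟩

end Proof

/-- **Main result.** -/
theorem result (F : Type) [Field F] [NumberField F] :
    (∀ e : Fin 3 → F, Function.Injective e → e 0 + e 1 + e 2 = 0 → Finite (ShaTwo e) ∧
      SelmerOrder e (2 ^ (2 + selmerRank e)) ∧ 2 ^ rank e * Nat.card (ShaTwo e) = 2 ^ selmerRank e ∧
      (selmerRank e = 0 ↔ Finite (curve e).toAffine.Point ∧ ∀ (n : ℕ) (x : Sha (curve e)), 2 ^ n • x = 0 → x = 0)) ∧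
    (∀ e : Fin 3 → F, Function.Injective e → (F →+* ℝ) → ¬ Exceptional e) ∧
    (∀ (e : Fin 3 → F) (m m' : F), Function.Injective e → (Matched (twist m e) (twist m' e) ↔
      (∃ x : F, m * m' = x ^ 2) ∨ (∃ x : F, -(m * m') = x ^ 2) ∧
        ∃ i j l, i ≠ j ∧ i ≠ l ∧ j ≠ l ∧ ∃ s : F, -((e i - e j) * (e i - e l)) = s ^ 2)) ∧
    HasSum law 1 ∧ (∀ c, HasSum (parityLaw c) 1) ∧ (0.4194 < parityLaw 0 0 ∧ parityLaw 0 0 < 0.4195) ∧
    ∀ (κ : Type) [Fintype κ] (e : κ → Fin 3 → F), (∀ l, Function.Injective (e l)) →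
      (∀ l, e l 0 + e l 1 + e l 2 = 0) → (∀ l, NoCyclicFour (e l)) → (∀ l, ¬ Exceptional (e l)) →
      (∀ l l', l ≠ l' → ¬ Matched (e l) (e l')) →
      ∃ y₀ : ℕ, ∀ y, y₀ ≤ y → ∀ D₀ : F, D₀ ≠ 0 →
        (∀ D : F, D ≠ 0 → (∀ v : HeightOneSpectrum (𝓞 F), Small y v → SquareAt v (D / D₀)) →
          (∀ φ : F →+* ℝ, 0 < φ (D / D₀)) → ∀ l,
          (selmerRank (twist D (e l)) : ZMod 2) = selmerRank (twist D₀ (e l))) ∧
        ∀ ε : ℝ, 0 < ε → ∃ k₀ : ℕ, ∀ k, k₀ ≤ k → Nested k fun X =>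
          (Ensemble y D₀ X).Finite ∧ (Ensemble y D₀ X).Nonempty ∧
          (∀ q ∈ Ensemble y D₀ X, ∀ D D', Fits y D₀ q D → Fits y D₀ q D' →
            (∃ x : F, D' = D * x ^ 2) ∧ ∀ l, selmerRank (twist D' (e l)) = selmerRank (twist D (e l))) ∧
          ∀ 𝒜 : Set (κ → ℕ),
            |share {q ∈ Ensemble y D₀ X | ∀ D, Fits y D₀ q D → (fun l => selmerRank (twist D (e l))) ∈ 𝒜}
              (Ensemble y D₀ X) -
              ∑' g : κ → ℕ, if g ∈ 𝒜 then ∏ l, parityLaw (selmerRank (twist D₀ (e l))) (g l) else 0| ≤ ε := by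
  have hnmc := Q283.FT.t_NMC
  obtain ⟨hA, hB⟩ := Q283.FG.t_GMAIN F
  refine ⟨fun e he hs => ?_, fun e he φ => not_exceptional φ he, fun e m m' he => matched_twists he, ?_, fun c => ?_, ?_, ?_⟩
  · obtain ⟨h1, h2, h3, h4⟩ := hA e ⟨he, hs⟩
    refine ⟨h1, ?_, h3, h4⟩
    rw [add_comm]
    exact h2
  · rw [law_eq]
    exact Pool.Agent.Q269.SL.hasSum_law
  · rw [show parityLaw c = fun e => Q44.JQ.lawc c e from funext (parity_eq c)]
    exact Q44.JQ.M.hasSum_lawc c
  · rw [parity_eq]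
    exact hnmc.1
  intro κ _ e he hs h4 hX hM
  obtain ⟨y0, hy0⟩ := hB κ e (fun l => ⟨he l, hs l⟩) (fun l => noFour (h4 l)) (fun l h => hX l (exceptional h)) hM
  refine ⟨y0, fun y hy D₀ hD₀ => ?_⟩
  obtain ⟨hpar, C, hC⟩ := hy0 y hy D₀ hD₀
  refine ⟨fun D hD hDD hDR l => hpar D hD (fun v hv => (loc_iff v _).1 (hDD v hv)) hDR l, fun ε hε => ?_⟩
  obtain ⟨k0, hk0⟩ := hC ε hε
  refine ⟨k0, fun k hk => (nested_iff k _).mpr (Q7.LK.nest_mono k _ _ (fun X hX => ?_) (hk0 k hk))⟩
  obtain ⟨hfin, hpos, huniq, hlaw, -⟩ := hX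
  rw [ens_eq]
  have hne : (Q283.FG.Ens y D₀ X).Nonempty := by
    rw [← Set.ncard_pos hfin]
    exact_mod_cast hpos
  refine ⟨hfin, hne, fun q hq D D' hD hD' => ?_, fun 𝒜 => ?_⟩
  · have hq1 : Function.Injective q := hq.1.1
    have hq2 : ∀ i, ¬ Small y (q i) := fun i => (hq.1.2 i).1
    obtain ⟨⟨x, hx⟩, h3⟩ := huniq q D D' ((fits_iff hq1 hq2).1 hD) ((fits_iff hq1 hq2).1 hD')
    refine ⟨⟨x, ?_⟩, fun l => (h3 l).2⟩
    rw [← hx, mul_div_cancel₀ _ hD.ne]
  · have h1 := hlaw 𝒜
    have h2 : {q ∈ Q283.FG.Ens y D₀ X | ∀ D, Fits y D₀ q D → (fun l => selmerRank (twist D (e l))) ∈ 𝒜} =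
        {q ∈ Q283.FG.Ens y D₀ X | ∀ D, Q283.FG.FR y D₀ q D →
          (fun l => Q283.FT.rk2 (Q283.FT.twi D (e l))) ∈ 𝒜} := by
      ext q
      simp only [Set.mem_ofPred_eq]
      constructor
      · rintro ⟨hq, h⟩
        exact ⟨hq, fun D hD => h D ((fits_iff hq.1.1 fun i => (hq.1.2 i).1).2 hD)⟩
      · rintro ⟨hq, h⟩
        exact ⟨hq, fun D hD => h D ((fits_iff hq.1.1 fun i => (hq.1.2 i).1).1 hD)⟩
    have h3 : (∑' g : κ → ℕ, if g ∈ 𝒜 then ∏ l, parityLaw (selmerRank (twist D₀ (e l))) (g l) else 0) =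
        ∑' g : κ → ℕ, if g ∈ 𝒜 then ∏ l, Q44.JQ.lawc (Q283.FT.par D₀ (e l)) (g l) else 0 := by
      simp only [parity_eq]
      rfl
    rw [h2, h3]
    unfold share
    rw [div_sub' hpos.ne', abs_div, abs_of_pos hpos, div_le_iff₀ hpos, mul_comm ((Q283.FG.Ens y D₀ X).ncard : ℝ)]
    exact h1

end Pool.Agent.Results.MP_1a91b9_nt.JointLawAllNumberFields
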