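import Pool.Agent.Q161.ESB.All3

/-!
# The ranks of elliptic curves over ALL `(ℤ/2)^m`-extensions of a number field

Let `F` be any number field, `m ≥ 1`, and `E_i : y² = x³ + a_i x + b_i`, `1 ≤ i ≤ r`, elliptic curves over `F` without
`F`-rational point of order two.  For a number field `K ⊇ F` let `R(K)` be the sum of the ranks of the `E_i(K)`.  We prove
that in the family of ALL Galois extensions `K` of `F` with group `(ℤ/2)^m`, ordered by the absolute value of the
discriminant, all exponential moments of `R(K)`, so also all moments, are bounded; in particular the average of `R(K)` is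
bounded.  The number of these `K` up to isomorphism, of discriminant at most `X^(2^(m-1))`, is of the order
`X (log X)^(2^m - 2)`, so for `m ≥ 2` a bound `O((log X)^ε)` for the mean values would not be enough.

Proof.  `K = F(√b_1, .., √b_m)`; the rank of `E(K)` is the sum of the ranks of the `2^m` quadratic twists of `E` by the
products of the `b_j`.  The norm of the product of the primes at which some `b_j` has odd valuation, raised to the power
`2^(m-1)`, is at most the discriminant, and at least a constant times it.  For a given `D` the number of the `K`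
containing `√D` involves the number `(2^(m-1))^ω(D)` of the decompositions of the support of `D`.  So the result
follows from bounds of the right order for the sums of `M^ω(D) 2^(k R(D))` over all quadratic twists (`M = 2^(m-1)`; projects ESM,
ESF, ESN, ESB; `Pool/Agent/Q161`): the 2-descent over `F`, a system of quadratic characters of ray classes of `F` and of
fields containing `F` attached to the elements of a finite semisimple Galois module; the primes dividing `D` are
distributed over `M` blocks, and a sieve for the systems of `M` times as many variables saves a power of the logarithm as long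
as more than `M` variables are free.
Project of helper161 with helpers 14, 24, 26, 38, 63, 65, 68, 79, 92, 96, 121, 123, 124, 129, 147, 149, 150, 151, 153, 164,
166, 177, 182, 184, 190, 193, 195, 208, 210, 211, 214, 223, 224, 237, 238, 241, 261, 275, 285, 299.
-/

set_option autoImplicit false

namespace Pool.Agent.Results.MP_1a91b9_nt.MultiquadraticExtensions

open Finset NumberField Pool.Agent.Q161.ESB

open Pool.Agent.Q161.ESN.Quad (rankOver)

open scoped Classical

/-- Let `F` be any number field, `m ≥ 1`.  (A) There is a `C ≥ 1` such that for all `X ≥ 1` there are complete families of the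
Galois extensions `K` of `F` with group `(ℤ/2)^m` and `|discriminant| ≤ X^(2^(m-1))`, each isomorphism class over `F` once,
and they have at most `C X (1 + log X)^(2^m - 2)` members, and at least `X (1 + log X)^(2^m - 2)/C` if `X ≥ C`.
(B) Let `E_i : y² = x³ + a_i x + b_i`, `1 ≤ i ≤ r`, be elliptic curves over `F` without `F`-rational points of order two, and
`R(K)` the sum of the ranks of the `E_i(K)`.  For every `k` there is a `C > 0` such that for all `X ≥ 1` and all families of `n`
Galois extensions `K` of `F` with group `(ℤ/2)^m`, pairwise not isomorphic over `F`, of discriminants at most `X^(2^(m-1))`: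
with `L = X (1 + log X)^(2^m - 2)`, (1) the sum of `2^(k R(K))` is at most `C L`; (2) the sum of `R(K)^k` is at most `C L`; (3) for
all `t` at most `C L / 2^(k t)` of the `K` satisfy `R(K) ≥ t`; (4) `k` times the sum of `R(K)` is at most `n log_2 (C L / n)`, if
`n > 0`; (5) if the family is complete, the means of `2^(k R(K))` and of `R(K)^k` are at most `C` and the proportion of the `K`
with `R(K) ≥ t` is at most `C / 2^(k t)`. -/
theorem result (F : Type) [Field F] [NumberField F] (m : ℕ) (hm : 1 ≤ m) :
    (∃ C : ℝ, 1 ≤ C ∧ ∀ X : ℝ, 1 ≤ X →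
      (∃ (n : ℕ) (K : Fin n → Type) (_ : ∀ i, Field (K i)) (_ : ∀ i, NumberField (K i))
        (_ : ∀ i, Algebra F (K i)), AllElementary F m X K) ∧
      ∀ (n : ℕ) (K : Fin n → Type) [∀ i, Field (K i)] [∀ i, NumberField (K i)]
        [∀ i, Algebra F (K i)], AllElementary F m X K →
        (C ≤ X → X * (1 + Real.log X) ^ (2 ^ m - 2) / C ≤ n) ∧
        (n : ℝ) ≤ C * X * (1 + Real.log X) ^ (2 ^ m - 2)) ∧
    ∀ (r : ℕ) (a b : Fin r → F), (∀ i, ∀ x : F, x ^ 3 + a i * x + b i ≠ 0) → ∀ k : ℕ,
      ∃ C : ℝ, 0 < C ∧ ∀ (X : ℝ) (n : ℕ) (K : Fin n → Type) [∀ i, Field (K i)]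
        [∀ i, NumberField (K i)] [∀ i, Algebra F (K i)], 1 ≤ X →
        (Elementary F m X K →
          (∑ i, (2 : ℝ) ^ (k * rankOver a b (K i)) ≤ C * X * (1 + Real.log X) ^ (2 ^ m - 2)) ∧
          (∑ i, (rankOver a b (K i) : ℝ) ^ k ≤ C * X * (1 + Real.log X) ^ (2 ^ m - 2)) ∧
          (∀ t : ℕ, ((univ.filter (fun i => t ≤ rankOver a b (K i))).card : ℝ) ≤
            C * X * (1 + Real.log X) ^ (2 ^ m - 2) / 2 ^ (k * t)) ∧
          (0 < n → k * ∑ i, (rankOver a b (K i) : ℝ) ≤
            n * Real.logb 2 (C * X * (1 + Real.log X) ^ (2 ^ m - 2) / n))) ∧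
        (AllElementary F m X K → (∑ i, (2 : ℝ) ^ (k * rankOver a b (K i)) ≤ C * n) ∧
          (∑ i, (rankOver a b (K i) : ℝ) ^ k ≤ C * n) ∧
          ∀ t : ℕ, ((univ.filter (fun i => t ≤ rankOver a b (K i))).card : ℝ) ≤
            C * n / 2 ^ (k * t)) :=
  ⟨number t_dsc t_cnt t_fam t_kum t_iso t_ext t_lowb t_dup F m hm, fun r a b h k =>
    gen t_cnt t_fam t_kum t_iso t_dsc t_ext t_lowb t_dup F m hm
      (fun K _ _ _ => rankOver a b K) k (core t_cnt t_fam t_kum t_iso F m hm r a b h k)⟩

end Pool.Agent.Results.MP_1a91b9_nt.MultiquadraticExtensions
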